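import Pool.Agent.L5helper98.NG.Defs

set_option autoImplicit false

open MeasureTheory ProbabilityTheory Filter Topology Set
open scoped ENNReal

namespace Pool.Agent.L5helper87.NG

open Pool.Agent.L5helper98.NG

theorem sum_rpow_le {ι : Type} (s : Finset ι) (f : ι → ℝ≥0∞) (p : ℝ) (hp : 1 ≤ p) :
    ∑ i ∈ s, f i ^ p ≤ (∑ i ∈ s, f i) ^ p := by
  classical
  induction s using Finset.induction_on with
  | empty => simp
  | insert a s ha ih =>
    rw [Finset.sum_insert ha, Finset.sum_insert ha]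
    exact (add_le_add_right ih _).trans (ENNReal.add_rpow_le_rpow_add _ _ hp)

theorem LOR_holds (hQB : St_QB) (hMAS : St_MAS) : St_LOR := by
  intro d Ω _ P _ X hd hF β p hβ hp hβp B hB
  obtain ⟨δ, C, hδ, hQ⟩ := hQB d Ω P X hd hF β p hβ hp.le
  obtain ⟨κ, hκ⟩ : ∃ κ, κ = (p - 1) * (β ^ 2 * p / 2 - d) := ⟨_, rfl⟩
  have hκ0 : 0 < κ := by
    rw [hκ]
    exact mul_pos (by linarith) (by linarith)
  obtain ⟨b, hb⟩ : ∃ b, b = B.toReal := ⟨_, rfl⟩
  have hb0 : 0 ≤ b := by rw [hb]; exact ENNReal.toReal_nonneg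
  obtain ⟨T, hT⟩ : ∃ T, T = max 0 (max (Real.log (1 / δ))
    ((Real.log (b + 1) + C + d * (p - 1) * Real.log 2) / κ)) := ⟨_, rfl⟩
  obtain ⟨n, hn⟩ : ∃ n, T ≤ Cv P X n 0 0 := (hF.var_infty.eventually_ge_atTop T).exists
  refine ⟨n, ?_⟩
  obtain ⟨t, ht⟩ : ∃ t, t = Cv P X n 0 0 := ⟨_, rfl⟩
  rw [← ht] at hn
  have ht0 : 0 ≤ t := le_trans (by rw [hT]; exact le_max_left _ _) hn
  have ht1 : Real.log (1 / δ) ≤ t :=
    le_trans (by rw [hT]; exact (le_max_left _ _).trans (le_max_right _ _)) hn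
  have ht2 : (Real.log (b + 1) + C + d * (p - 1) * Real.log 2) / κ ≤ t :=
    le_trans (by rw [hT]; exact (le_max_right _ _).trans (le_max_right _ _)) hn
  obtain ⟨N, hN⟩ : ∃ N : ℕ, N = ⌈Real.exp t⌉₊ := ⟨_, rfl⟩
  have hN1 : Real.exp t ≤ N := by rw [hN]; exact Nat.le_ceil _
  have hN2 : (N : ℝ) ≤ 2 * Real.exp t := by
    have h1 := Nat.ceil_lt_add_one (Real.exp_pos t).le
    rw [← hN] at h1
    have h2 : 1 ≤ Real.exp t := Real.one_le_exp ht0
    linarith
  have hNpos : (0 : ℝ) < N := (Real.exp_pos t).trans_le hN1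
  have hNe : N ≠ 0 := by rintro rfl; simp at hNpos
  obtain ⟨l, hl⟩ : ∃ l, l = Real.log N := ⟨_, rfl⟩
  have hl1 : t ≤ l := by
    rw [hl, ← Real.log_exp t]
    exact Real.log_le_log (Real.exp_pos t) hN1
  have hl2 : l ≤ t + Real.log 2 := by
    rw [hl]
    refine (Real.log_le_log hNpos hN2).trans (le_of_eq ?_)
    rw [Real.log_mul (by norm_num) (Real.exp_pos t).ne', Real.log_exp]
    ring
  have hNl : (N : ℝ) = Real.exp l := by rw [hl, Real.exp_log hNpos]
  obtain ⟨r, hr⟩ : ∃ r : ℝ, r = 1 / N := ⟨_, rfl⟩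
  have hr0 : 0 < r := by rw [hr]; positivity
  have hrl : r = Real.exp (-l) := by rw [hr, hNl, Real.exp_neg, one_div]
  have hrN : (N : ℝ) * r = 1 := by rw [hr]; field_simp
  have hrδ : r ≤ δ := by
    rw [hrl, ← Real.exp_log hδ]
    refine Real.exp_le_exp.2 ?_
    rw [one_div, Real.log_inv] at ht1
    linarith
  have hlog : Cv P X n 0 0 ≤ Real.log (1 / r) := by
    rw [← ht, hrl, one_div, ← Real.exp_neg, Real.log_exp]
    linarith
  -- the cubes
  let a : (Fin d → Fin N) → Fin d → ℝ := fun i k => (i k : ℕ) * r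
  let u : (Fin d → Fin N) → Fin d → ℝ := fun i => a i + fun _ => r
  let Q : (Fin d → Fin N) → Set (Fin d → ℝ) := fun i => Icc (a i) (u i)
  let J : (Fin d → Fin N) → Set (Fin d → ℝ) := fun i =>
    Set.pi univ (fun k => Ico (a i k) (u i k))
  have hQc : ∀ i, Q i ⊆ cube d := by
    intro i x hx
    refine ⟨fun k => ?_, fun k => ?_⟩
    · have h1 := hx.1 k
      have h2 : (0 : ℝ) ≤ (i k : ℕ) * r := by positivity
      exact h2.trans h1
    · have h1 := hx.2 k
      have h2 : ((i k : ℕ) : ℝ) + 1 ≤ N := by exact_mod_cast (i k).2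
      have h3 : (((i k : ℕ) : ℝ) + 1) * r ≤ N * r := mul_le_mul_of_nonneg_right h2 hr0.le
      rw [hrN] at h3
      have h4 : u i k = (((i k : ℕ) : ℝ) + 1) * r := by
        show ((i k : ℕ) : ℝ) * r + r = _
        ring
      rw [h4] at h1
      exact h1.trans h3
  have hJQ : ∀ i, J i ⊆ Q i := by
    intro i x hx
    exact ⟨fun k => (hx k (mem_univ _)).1, fun k => (hx k (mem_univ _)).2.le⟩
  have hJm : ∀ i, MeasurableSet (J i) := fun i =>
    MeasurableSet.univ_pi fun k => measurableSet_Ico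
  have hQm : ∀ i, MeasurableSet (Q i) := fun i => measurableSet_Icc
  have hae : ∀ i, (J i : Set (Fin d → ℝ)) =ᵐ[volume] Q i := fun i =>
    Measure.univ_pi_Ico_ae_eq_Icc (μ := fun _ : Fin d => (volume : Measure ℝ)) (f := a i)
      (g := u i)
  have hdisj : Pairwise (Function.onFun Disjoint J) := by
    intro i j hij
    rw [Function.onFun, Set.disjoint_left]
    intro x hxi hxj
    refine hij (funext fun k => Fin.ext ?_)
    have h1 := hxi k (mem_univ _)
    have h2 := hxj k (mem_univ _)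
    have e1 : ((i k : ℕ) : ℝ) * r ≤ x k := h1.1
    have e2 : x k < ((i k : ℕ) : ℝ) * r + r := h1.2
    have e3 : ((j k : ℕ) : ℝ) * r ≤ x k := h2.1
    have e4 : x k < ((j k : ℕ) : ℝ) * r + r := h2.2
    have f1 : ((i k : ℕ) : ℝ) < (j k : ℕ) + 1 := by
      by_contra h
      push Not at h
      have := mul_le_mul_of_nonneg_right h hr0.le
      linarith
    have f2 : ((j k : ℕ) : ℝ) < (i k : ℕ) + 1 := by
      by_contra h
      push Not at h
      have := mul_le_mul_of_nonneg_right h hr0.le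
      linarith
    have g1 : (i k : ℕ) < (j k : ℕ) + 1 := by exact_mod_cast f1
    have g2 : (j k : ℕ) < (i k : ℕ) + 1 := by exact_mod_cast f2
    omega
  have hcm : MeasurableSet (cube d) := measurableSet_Icc
  have hMc := hMAS d Ω P X hF β hβ (cube d) hcm subset_rfl n
  have hMQ := fun i => hMAS d Ω P X hF β hβ (Q i) (hQm i) (hQc i) n
  have hsum : ∀ o, ∑ i, mass P X β (Q i) n o ≤ mass P X β (cube d) n o := by
    intro o
    have hint := hMc.2.2.1 o
    have h1 : ∀ i, mass P X β (Q i) n o = ∫ x in J i, Real.exp (β * S X n o x) / Zf P X β n x :=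
      fun i => (setIntegral_congr_set (hae i)).symm
    rw [Finset.sum_congr rfl fun i _ => h1 i, ← integral_iUnion_fintype hJm hdisj
      fun i => hint.mono_set ((hJQ i).trans (hQc i))]
    refine setIntegral_mono_set hint (ae_of_all _ fun x => ?_) ?_
    · exact div_nonneg (Real.exp_pos _).le (integral_nonneg fun o => (Real.exp_pos _).le)
    · exact HasSubset.Subset.eventuallyLE (iUnion_subset fun i => (hJQ i).trans (hQc i))
  -- the moments
  have hlow : ∑ i : Fin d → Fin N, ∫⁻ o, ENNReal.ofReal (mass P X β (Q i) n o ^ p) ∂P ≤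
      ∫⁻ o, ENNReal.ofReal (mass P X β (cube d) n o ^ p) ∂P := by
    rw [← lintegral_finset_sum]
    · refine lintegral_mono fun o => ?_
      have h1 : ∀ i, ENNReal.ofReal (mass P X β (Q i) n o ^ p) =
          ENNReal.ofReal (mass P X β (Q i) n o) ^ p := fun i =>
        (ENNReal.ofReal_rpow_of_nonneg ((hMQ i).2.1 o) (by linarith)).symm
      rw [Finset.sum_congr rfl fun i _ => h1 i,
        ← ENNReal.ofReal_rpow_of_nonneg (hMc.2.1 o) (by linarith : (0 : ℝ) ≤ p)]
      refine (sum_rpow_le _ _ p hp.le).trans (ENNReal.rpow_le_rpow ?_ (by linarith))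
      rw [← ENNReal.ofReal_sum_of_nonneg fun i _ => (hMQ i).2.1 o]
      exact ENNReal.ofReal_le_ofReal (hsum o)
    · exact fun i _ => ((hMQ i).1.pow_const p).ennreal_ofReal
  refine le_trans ?_ hlow
  have h1 : ∀ i ∈ (Finset.univ : Finset (Fin d → Fin N)),
      ENNReal.ofReal (r ^ (d * p) * Real.exp (β ^ 2 * (p ^ 2 - p) / 2 * Cv P X n 0 0 - C)) ≤
      ∫⁻ o, ENNReal.ofReal (mass P X β (Q i) n o ^ p) ∂P := fun i _ =>
    hQ n (a i) r hr0 hrδ hlog (hQc i)
  refine le_trans ?_ (Finset.sum_le_sum h1)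
  rw [Finset.sum_const, Finset.card_univ, Fintype.card_fun, Fintype.card_fin, Fintype.card_fin,
    nsmul_eq_mul, ← ENNReal.ofReal_natCast, ← ENNReal.ofReal_mul (Nat.cast_nonneg _),
    ← ENNReal.ofReal_toReal hB.ne]
  refine ENNReal.ofReal_le_ofReal ?_
  rw [← hb, ← ht]
  have e1 : ((N ^ d : ℕ) : ℝ) = Real.exp (l * d) := by
    push_cast
    rw [hNl, ← Real.exp_nat_mul]
    ring_nf
  have e2 : r ^ ((d : ℝ) * p) = Real.exp (-l * (d * p)) := by
    rw [hrl, ← Real.exp_mul]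
  rw [e1, e2, ← Real.exp_add, ← Real.exp_add]
  have h3 : Real.log (b + 1) + C + d * (p - 1) * Real.log 2 ≤ t * κ := (div_le_iff₀ hκ0).1 ht2
  have h4 : (d : ℝ) * (p - 1) * l ≤ d * (p - 1) * (t + Real.log 2) :=
    mul_le_mul_of_nonneg_left hl2 (mul_nonneg (Nat.cast_nonneg _) (by linarith))
  calc b ≤ b + 1 := by linarith
    _ = Real.exp (Real.log (b + 1)) := (Real.exp_log (by linarith)).symm
    _ ≤ _ := Real.exp_le_exp.2 ?_
  rw [hκ] at h3
  nlinarith

end Pool.Agent.L5helper87.NG
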